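import Pool.Agent.Helper25.PCap.GoalsA

/-!
Planar p-capacity (MP_576c25_an): packet A10, weak inclusion implies strict inclusion.
-/

set_option autoImplicit false

open MeasureTheory Set Filter Topology
open scoped ContDiff Real

noncomputable section

namespace Pool.Agent.Helper25.PCap

namespace A10

variable {κ C0 : ℝ}

lemma aa_ge (κ : ℝ) (hκ : 0 < κ) (hκ1 : κ < 1) (n : ℕ) : 1 - κ ≤ aa κ n := by
  unfold aa
  have h1 : (1 - κ) ≤ Real.sqrt ((1 - κ) ^ 2 + 4 * κ * (n : ℝ) ^ 2) := by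
    apply Real.le_sqrt_of_sq_le
    have : 0 ≤ 4 * κ * (n : ℝ) ^ 2 := by positivity
    linarith
  linarith

lemma md_re_le (c : ℕ → ℂ) (n : ℕ) (θ : ℝ) : |(md c n θ).re| ≤ ‖c n‖ := by
  unfold md
  refine (Complex.abs_re_le_norm _).trans ?_
  rw [norm_mul, Complex.norm_exp_ofReal_mul_I, mul_one]

/-- exponential bound of `u` at `-∞` -/
lemma u_bound (hκ : 0 < κ) (hκ1 : κ < 1) (D : TData κ C0) :
    ∃ K τ₁ : ℝ, (∀ θ, τ₁ ≤ D.T θ) ∧
      ∀ τ θ, τ ≤ τ₁ → D.u (τ, θ) ≤ K * Real.exp ((1 - κ) * τ) := by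
  obtain ⟨c, τ₁, hT, hs, hc0, hc1, hF⟩ := D.exp
  have hs' : Summable (fun n : ℕ => ‖c n‖ * Real.exp (aa κ n * τ₁)) := by
    refine Summable.of_nonneg_of_le (fun n => by positivity) (fun n => ?_) hs
    have h1 : (1 : ℝ) ≤ ((n : ℝ) + 1) ^ 3 := by
      apply one_le_pow₀
      have : (0 : ℝ) ≤ n := Nat.cast_nonneg n
      linarith
    have h2 : 0 ≤ ‖c n‖ * Real.exp (aa κ n * τ₁) := by positivity
    nlinarith
  set K := ∑' n : ℕ, ‖c n‖ * Real.exp (aa κ n * τ₁) with hK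
  refine ⟨C0 + K * Real.exp (-((1 - κ) * τ₁)), τ₁, hT, fun τ θ hτ => ?_⟩
  have h1 := (hF τ θ hτ).1
  have hs2 : Summable (fun n : ℕ => ‖c n‖ * Real.exp (aa κ n * τ₁) *
      Real.exp ((1 - κ) * (τ - τ₁))) := hs'.mul_right _
  have h2 : HasSum (fun n : ℕ => ‖c n‖ * Real.exp (aa κ n * τ₁) *
      Real.exp ((1 - κ) * (τ - τ₁))) (K * Real.exp ((1 - κ) * (τ - τ₁))) :=
    hs'.hasSum.mul_right _
  have h3 : D.u (τ, θ) - C0 * Real.exp ((1 - κ) * τ) ≤ K * Real.exp ((1 - κ) * (τ - τ₁)) := by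
    refine hasSum_le (fun n => ?_) h1 h2
    have ha := aa_ge κ hκ hκ1 n
    have hm := md_re_le c n θ
    have hexp : Real.exp (aa κ n * τ) ≤ Real.exp (aa κ n * τ₁) * Real.exp ((1 - κ) * (τ - τ₁)) := by
      rw [← Real.exp_add]
      apply Real.exp_le_exp.mpr
      nlinarith
    have hm' : (md c n θ).re ≤ ‖c n‖ := (le_abs_self _).trans hm
    calc (md c n θ).re * Real.exp (aa κ n * τ) ≤ ‖c n‖ * Real.exp (aa κ n * τ) :=
          mul_le_mul_of_nonneg_right hm' (Real.exp_pos _).le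
      _ ≤ ‖c n‖ * (Real.exp (aa κ n * τ₁) * Real.exp ((1 - κ) * (τ - τ₁))) :=
          mul_le_mul_of_nonneg_left hexp (norm_nonneg _)
      _ = _ := by ring
  have h4 : Real.exp ((1 - κ) * (τ - τ₁)) = Real.exp (-((1 - κ) * τ₁)) * Real.exp ((1 - κ) * τ) := by
    rw [← Real.exp_add]
    congr 1
    ring
  rw [h4] at h3
  nlinarith

lemma u_contAt (D : TData κ C0) {z : ℝ × ℝ} (hz : z.1 ≤ D.T z.2) : ContinuousAt D.u z :=
  (D.sys.1.contDiffAt (D.Vopen.mem_nhds (D.VT z hz))).continuousAt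

lemma om_contAt (D : TData κ C0) {z : ℝ × ℝ} (hz : z.1 ≤ D.T z.2) : ContinuousAt D.om z :=
  (D.sys.2.1.contDiffAt (D.Vopen.mem_nhds (D.VT z hz))).continuousAt

lemma u_diffAt (D : TData κ C0) {z : ℝ × ℝ} (hz : z.1 ≤ D.T z.2) : DifferentiableAt ℝ D.u z :=
  (D.sys.1.contDiffAt (D.Vopen.mem_nhds (D.VT z hz))).differentiableAt (by simp)

/-- `u` is strictly increasing along vertical lines -/
lemma u_mono (D : TData κ C0) (θ : ℝ) : StrictMonoOn (fun τ => D.u (τ, θ)) (Iic (D.T θ)) := by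
  have hd : ∀ τ ≤ D.T θ, HasDerivAt (fun τ => D.u (τ, θ)) (D1 D.u (τ, θ)) τ := by
    intro τ hτ
    have h1 := (u_diffAt D (z := (τ, θ)) hτ).hasFDerivAt
    have h2 : HasDerivAt (fun τ : ℝ => ((τ, θ) : ℝ × ℝ)) ((1 : ℝ), (0 : ℝ)) τ :=
      (hasDerivAt_id τ).prodMk (hasDerivAt_const τ θ)
    exact h1.comp_hasDerivAt τ h2
  apply strictMonoOn_of_deriv_pos (convex_Iic _)
  · intro τ hτ
    exact (hd τ hτ).continuousAt.continuousWithinAt
  · intro τ hτ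
    rw [interior_Iic] at hτ
    rw [(hd τ (le_of_lt hτ)).deriv]
    exact D.upos (τ, θ) (le_of_lt hτ)

end A10

open A10 in
theorem pkA10 (h1 : GA1) (h7 : GA7) (h8 : GA8) (h9 : GA9) : GA10 := by
  intro κ hκ hκ1 S D α hα hα1 hw z₀ hz₀ hu₀
  by_contra hcon
  -- strictness
  have hlt : ∀ z : ℝ × ℝ, z.1 ≤ D.T z.2 → D.u z < α → z.1 < D.T z.2 := by
    intro z hz hu
    rcases lt_or_eq_of_le hz with h | h
    · exact h
    · exfalso
      have := D.u1 z.2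
      rw [← h] at this
      have h2 : D.u z = 1 := this
      linarith
  -- the open sets
  set Z : Set (ℝ × ℝ) := {z | z.1 ≤ D.T z.2 ∧ D.u z < α ∧
    ¬ InS S (shf κ α z.1) (D.u z / α) (D.om z)} with hZ
  set I : Set (ℝ × ℝ) := {z | z.1 ≤ D.T z.2 ∧ D.u z < α ∧
    InS S (shf κ α z.1) (D.u z / α) (D.om z)} with hI
  have hZo : IsOpen Z := by
    rw [isOpen_iff_mem_nhds]
    intro z hz
    exact h7 κ hκ hκ1 S D α hα hα1 hw z hz.1 hz.2.1 hz.2.2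
  have hshf : Continuous (fun t : ℝ => shf κ α t) := by
    unfold shf
    fun_prop
  have hIo : IsOpen I := by
    rw [isOpen_iff_mem_nhds]
    intro z hz
    have hzlt := hlt z hz.1 hz.2.1
    have e1 : ∀ᶠ w : ℝ × ℝ in 𝓝 z, w.1 < D.T w.2 := by
      have hc : Continuous (fun w : ℝ × ℝ => D.T w.2) := D.Tcont.comp continuous_snd
      exact (isOpen_lt continuous_fst hc).mem_nhds hzlt
    have e2 : ∀ᶠ w : ℝ × ℝ in 𝓝 z, D.u w < α :=
      (u_contAt D hz.1).eventually_lt continuousAt_const hz.2.1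
    have hcont : Tendsto (fun w : ℝ × ℝ => (shf κ α w.1, D.u w / α, D.om w)) (𝓝 z)
        (𝓝 (shf κ α z.1, D.u z / α, D.om z)) := by
      refine Tendsto.prodMk_nhds ?_ (Tendsto.prodMk_nhds ?_ ?_)
      · exact (hshf.comp continuous_fst).continuousAt
      · exact (u_contAt D hz.1).div_const α
      · exact om_contAt D hz.1
    have e3 := hcont.eventually ((h1 κ hκ hκ1 S).2 _ _ _ hz.2.2)
    filter_upwards [e1, e2, e3] with w hw1 hw2 hw3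
    exact ⟨hw1.le, hw2, hw3⟩
  have hdis : Disjoint Z I := by
    rw [Set.disjoint_left]
    intro z hz hz'
    exact hz.2.2 hz'.2.2
  have hcov : ∀ z : ℝ × ℝ, z.1 ≤ D.T z.2 → D.u z < α → z ∈ Z ∪ I := by
    intro z hz hu
    by_cases h : InS S (shf κ α z.1) (D.u z / α) (D.om z)
    · exact Or.inr ⟨hz, hu, h⟩
    · exact Or.inl ⟨hz, hu, h⟩
  have hconn : ∀ s : Set (ℝ × ℝ), IsPreconnected s → (∀ z ∈ s, z.1 ≤ D.T z.2 ∧ D.u z < α) →
      (s ∩ Z).Nonempty → s ⊆ Z := by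
    intro s hs hG hne
    exact IsPreconnected.subset_left_of_subset_union hZo hIo hdis
      (fun z hz => hcov z (hG z hz).1 (hG z hz).2) hne hs
  -- the horizontal line
  obtain ⟨K, τ₁, hT₁, hK⟩ := u_bound hκ hκ1 D
  obtain ⟨M, hM1, hM0, hMu⟩ : ∃ M : ℝ, M ≤ τ₁ ∧ M ≤ z₀.1 ∧ K * Real.exp ((1 - κ) * M) < α := by
    have ht : Tendsto (fun τ : ℝ => K * Real.exp ((1 - κ) * τ)) atBot (𝓝 (K * 0)) := by
      refine Tendsto.const_mul K ?_
      refine Real.tendsto_exp_atBot.comp ?_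
      exact tendsto_id.const_mul_atBot (by linarith)
    rw [mul_zero] at ht
    have e1 := ht.eventually (gt_mem_nhds hα)
    obtain ⟨M, hM⟩ := (e1.and ((eventually_le_atBot τ₁).and (eventually_le_atBot z₀.1))).exists
    exact ⟨M, hM.2.1, hM.2.2, hM.1⟩
  have hline : ∀ θ : ℝ, M ≤ D.T θ ∧ D.u (M, θ) < α := by
    intro θ
    exact ⟨hM1.trans (hT₁ θ), lt_of_le_of_lt (hK M θ hM1) hMu⟩
  -- vertical rays
  have hray : ∀ τ' θ : ℝ, τ' ≤ D.T θ → D.u (τ', θ) < α → ∀ τ ≤ τ', τ ≤ D.T θ ∧ D.u (τ, θ) < α := by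
    intro τ' θ hτ' hu τ hτ
    refine ⟨hτ.trans hτ', ?_⟩
    have := (u_mono D θ).monotoneOn (show τ ∈ Iic (D.T θ) from hτ.trans hτ') hτ' hτ
    exact lt_of_le_of_lt this hu
  have hrayconn : ∀ τ' θ : ℝ, IsPreconnected ((fun τ : ℝ => ((τ, θ) : ℝ × ℝ)) '' Iic τ') := by
    intro τ' θ
    exact isPreconnected_Iic.image _ (by fun_prop)
  have c1 : ∀ τ ≤ z₀.1, (τ, z₀.2) ∈ Z := by
    intro τ hτ
    refine hconn _ (hrayconn z₀.1 z₀.2) ?_ ⟨z₀, ⟨z₀.1, mem_Iic.mpr le_rfl, rfl⟩, hz₀, hu₀, hcon⟩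
      ⟨τ, hτ, rfl⟩
    rintro z ⟨t, ht, rfl⟩
    exact hray z₀.1 z₀.2 hz₀ hu₀ t ht
  have c2 : ∀ θ : ℝ, (M, θ) ∈ Z := by
    intro θ
    refine hconn ((fun θ : ℝ => ((M, θ) : ℝ × ℝ)) '' univ)
      (isPreconnected_univ.image _ (by fun_prop)) ?_ ⟨(M, z₀.2), ⟨z₀.2, mem_univ _, rfl⟩, c1 M hM0⟩
      ⟨θ, mem_univ _, rfl⟩
    rintro z ⟨t, ht, rfl⟩
    exact hline t
  have c3 : ∀ τ θ : ℝ, τ ≤ D.T θ → D.u (τ, θ) < α → (τ, θ) ∈ Z := by
    intro τ θ hτ hu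
    rcases le_total M τ with hle | hle
    · refine hconn _ (hrayconn τ θ) ?_ ⟨(M, θ), ⟨M, hle, rfl⟩, c2 θ⟩ ⟨τ, mem_Iic.mpr le_rfl, rfl⟩
      rintro z ⟨t, ht, rfl⟩
      exact hray τ θ hτ hu t ht
    · refine hconn _ (hrayconn M θ) ?_ ⟨(M, θ), ⟨M, mem_Iic.mpr le_rfl, rfl⟩, c2 θ⟩ ⟨τ, hle, rfl⟩
      rintro z ⟨t, ht, rfl⟩
      exact hray M θ (hline θ).1 (hline θ).2 t ht
  -- the boundary point
  obtain ⟨τb, hτb, hub⟩ : ∃ τb ≤ D.T 0, D.u (τb, 0) = α := by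
    have hcont : ContinuousOn (fun τ => D.u (τ, 0)) (Icc M (D.T 0)) := by
      intro τ hτ
      have h2 : ContinuousAt (fun τ : ℝ => ((τ, (0 : ℝ)) : ℝ × ℝ)) τ := by fun_prop
      exact (ContinuousAt.comp (x := τ) (f := fun τ : ℝ => ((τ, (0 : ℝ)) : ℝ × ℝ)) (g := D.u)
        (u_contAt D (z := (τ, 0)) hτ.2) h2).continuousWithinAt
    have hiv := intermediate_value_Icc (hline 0).1 hcont
    have hmem : α ∈ Icc (D.u (M, 0)) (D.u (D.T 0, 0)) := by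
      refine ⟨(hline 0).2.le, ?_⟩
      rw [D.u1 0]
      exact hα1
    obtain ⟨τb, hτb, hh⟩ := hiv hmem
    exact ⟨τb, hτb.2, hh⟩
  have htb := (h8 κ hκ hκ1 S D α hα hα1 hw (τb, 0) hτb hub).1
  have hom := h9 κ hκ hκ1 S D α hα hα1 hw (τb, 0) hτb hub
  simp only at htb hom
  obtain ⟨m, hm1, hm2⟩ := exists_between hom
  set tb := shf κ α τb with htbdef
  -- continuity of S.om at the slit
  have hSom : ContinuousWithinAt S.om {z | 0 ≤ z.2 ∧ z.2 ≤ π / 2 ∧ z ≠ (0, 0)} (tb, 0) := by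
    apply S.om_cont
    refine ⟨le_rfl, by positivity, ?_⟩
    intro h
    have := congrArg Prod.fst h
    simp only at this
    linarith
  have hSom2 : ∀ᶠ z in 𝓝 ((tb, 0) : ℝ × ℝ), z ∈ {z : ℝ × ℝ | 0 ≤ z.2 ∧ z.2 ≤ π / 2 ∧ z ≠ (0, 0)} →
      m < S.om z := by
    have := hSom.eventually (lt_mem_nhds hm2)
    rwa [eventually_nhdsWithin_iff] at this
  rw [nhds_prod_eq, Filter.eventually_prod_iff] at hSom2
  obtain ⟨pa, hpa, pb, hpb, hab⟩ := hSom2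
  rw [Metric.eventually_nhds_iff] at hpb
  obtain ⟨δ, hδ, hδb⟩ := hpb
  -- choose ϑ₁
  set ϑ₁ : ℝ := min (δ / 2) (π / 4) with hϑ₁
  have hϑ₁pos : 0 < ϑ₁ := lt_min (by linarith) (by positivity)
  have hϑ₁δ : ϑ₁ < δ := lt_of_le_of_lt (min_le_left _ _) (by linarith)
  have hϑ₁π : ϑ₁ < π / 2 := lt_of_le_of_lt (min_le_right _ _) (by linarith [Real.pi_pos])
  have hsin : Real.sin ϑ₁ ≠ 0 :=
    (Real.sin_pos_of_pos_of_lt_pi hϑ₁pos (by linarith [Real.pi_pos])).ne'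
  have hlt1 : S.u (tb, ϑ₁) < 1 := S.lt1 _ (Or.inr hsin)
  -- eventually statements as τ → τb
  have hcu : ContinuousAt (fun τ : ℝ => D.u (τ, 0) / α) τb := by
    have h2 : ContinuousAt (fun τ : ℝ => ((τ, (0 : ℝ)) : ℝ × ℝ)) τb := by fun_prop
    exact (ContinuousAt.comp (x := τb) (f := fun τ : ℝ => ((τ, (0 : ℝ)) : ℝ × ℝ)) (g := D.u)
      (u_contAt D (z := (τb, 0)) hτb) h2).div_const α
  have hcom : ContinuousAt (fun τ : ℝ => |D.om (τ, 0)|) τb := by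
    have h2 : ContinuousAt (fun τ : ℝ => ((τ, (0 : ℝ)) : ℝ × ℝ)) τb := by fun_prop
    exact (ContinuousAt.comp (x := τb) (f := fun τ : ℝ => ((τ, (0 : ℝ)) : ℝ × ℝ)) (g := D.om)
      (om_contAt D (z := (τb, 0)) hτb) h2).abs
  have hcS : ContinuousAt (fun τ : ℝ => S.u (shf κ α τ, ϑ₁)) τb := by
    have : Continuous (fun τ : ℝ => S.u (shf κ α τ, ϑ₁)) :=
      S.cont.comp (hshf.prodMk continuous_const)
    exact this.continuousAt
  have e1 : ∀ᶠ τ in 𝓝 τb, |D.om (τ, 0)| < m := hcom.eventually (gt_mem_nhds hm1)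
  have e2 : ∀ᶠ τ in 𝓝 τb, S.u (shf κ α τ, ϑ₁) < D.u (τ, 0) / α := by
    refine hcS.eventually_lt hcu ?_
    rw [hub, div_self hα.ne']
    exact hlt1
  have e3 : ∀ᶠ τ in 𝓝 τb, 0 < shf κ α τ := hshf.continuousAt.eventually (lt_mem_nhds htb)
  have e4 : ∀ᶠ τ in 𝓝 τb, pa (shf κ α τ) := hshf.continuousAt.eventually hpa
  have e5 : ∀ᶠ τ in 𝓝[<] τb, τ < τb := eventually_mem_nhdsWithin
  obtain ⟨τ, ⟨⟨⟨⟨h1', h2'⟩, h3'⟩, h4'⟩, h5'⟩⟩ :=
    (((((e1.and e2).and e3).and e4).filter_mono nhdsWithin_le_nhds).and e5).exists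
  have hτT : τ ≤ D.T 0 := h5'.le.trans hτb
  have huτ : D.u (τ, 0) < α := by
    have := u_mono D 0 (show τ ∈ Iic (D.T 0) from hτT) (show τb ∈ Iic (D.T 0) from hτb) h5'
    simp only at this
    rwa [hub] at this
  have hZτ := c3 τ 0 hτT huτ
  apply hZτ.2.2
  -- construct ϑ
  have hone : S.u (shf κ α τ, 0) = 1 := by
    apply S.slit
    intro hmem
    rcases hmem with h | h
    · simp only at h
      linarith
    · exact h (by simp)
  have hltone : D.u (τ, 0) / α < 1 := (div_lt_one hα).mpr huτ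
  have hcontS : ContinuousOn (fun ϑ => S.u (shf κ α τ, ϑ)) (Icc 0 ϑ₁) :=
    (S.cont.comp (by fun_prop)).continuousOn
  have hiv := intermediate_value_Ioo' hϑ₁pos.le hcontS
  have hmem : D.u (τ, 0) / α ∈ Ioo (S.u (shf κ α τ, ϑ₁)) (S.u (shf κ α τ, 0)) := by
    rw [hone]
    exact ⟨h2', hltone⟩
  obtain ⟨ϑ, hϑ, hϑu⟩ := hiv hmem
  refine ⟨ϑ, hϑ.1, hϑ.2.trans hϑ₁π, hϑu, ?_⟩
  have hpbϑ : pb ϑ := by
    apply hδb
    rw [Real.dist_eq, sub_zero, abs_of_pos hϑ.1]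
    exact hϑ.2.trans hϑ₁δ
  have := hab h4' hpbϑ ⟨hϑ.1.le, (hϑ.2.trans hϑ₁π).le, by
    intro h
    have := congrArg Prod.snd h
    simp only at this
    linarith [hϑ.1]⟩
  exact h1'.trans this

end Pool.Agent.Helper25.PCap
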