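import Pool.Agent.Helper25.PCap.GoalsT

/-!
Planar p-capacity (MP_576c25_an): packet T1a, the properties of `fT`.
-/

set_option autoImplicit false

open MeasureTheory Set Filter Topology
open scoped ContDiff Real

noncomputable section

namespace Pool.Agent.Helper25.PCap

namespace T1a

variable {G H : ℝ → ℝ}

lemma G_diff (hG : GCut G) : Differentiable ℝ G := hG.1.differentiable (by simp)

lemma G_mono (hG : GCut G) : Monotone G :=
  monotone_of_deriv_nonneg (G_diff hG) hG.2.2.2.1

lemma G_concave (hG : GCut G) : ConcaveOn ℝ univ G :=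
  hG.2.2.2.2.1.concaveOn_univ_of_deriv (G_diff hG)

lemma G_nonneg (hG : GCut G) {y : ℝ} (hy : 0 ≤ y) : 0 ≤ G y := by
  rw [← hG.2.1]
  exact G_mono hG hy

lemma G_le_one (hG : GCut G) (y : ℝ) : G y ≤ 1 := by
  rw [← hG.2.2.1 (max 1 y) (le_max_left _ _)]
  exact G_mono hG (le_max_right _ _)

/-- Lipschitz bound -/
lemma G_lip (hG : GCut G) {g₁ : ℝ} (hg : ∀ x, deriv G x ≤ g₁) {y y' : ℝ} (h : y ≤ y') :
    G y' - G y ≤ g₁ * (y' - y) :=
  (convex_univ (𝕜 := ℝ) (E := ℝ)).image_sub_le_mul_sub_of_deriv_le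
    (G_diff hG).continuous.continuousOn (G_diff hG).differentiableOn (fun x _ => hg x)
    y (mem_univ _) y' (mem_univ _) h

/-- `y G'(y) ≤ G(y)` for `y ≥ 0` -/
lemma G_mul_deriv (hG : GCut G) {y : ℝ} (hy : 0 ≤ y) : y * deriv G y ≤ G y := by
  rcases hy.eq_or_lt with h | h
  · rw [← h, hG.2.1]
    simp
  · obtain ⟨ξ, hξ, hd⟩ := exists_deriv_eq_slope G h (G_diff hG).continuous.continuousOn
      (G_diff hG).differentiableOn
    have h1 := hG.2.2.2.2.1 hξ.2.le
    rw [hG.2.1, sub_zero, sub_zero] at hd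
    rw [hd, le_div_iff₀ h] at h1
    linarith

/-- the perspective of `G` is nondecreasing -/
lemma G_persp_mono (hG : GCut G) {c s s' z : ℝ} (hc : 0 < c) (hs : 0 < s) (hss : s ≤ s') :
    s * G (z / (c * s)) ≤ s' * G (z / (c * s')) := by
  have hs' : 0 < s' := hs.trans_le hss
  have h1 := (G_concave hG).2 (mem_univ (z / (c * s))) (mem_univ 0)
    (show 0 ≤ s / s' by positivity) (show 0 ≤ 1 - s / s' by
      rw [sub_nonneg, div_le_one hs']; exact hss) (by ring)
  simp only [smul_eq_mul, mul_zero, add_zero, hG.2.1] at h1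
  have h2 : s / s' * (z / (c * s)) = z / (c * s') := by
    field_simp
  rw [h2] at h1
  have h3 := mul_le_mul_of_nonneg_left h1 hs'.le
  have h4 : s' * (s / s' * G (z / (c * s))) = s * G (z / (c * s)) := by
    field_simp
  rw [h4] at h3
  exact h3

/-- the perspective of `G` is jointly concave -/
lemma G_persp_conc (hG : GCut G) {c t t' z z' a b : ℝ} (hc : 0 < c) (ht : 0 < t) (ht' : 0 < t')
    (ha : 0 ≤ a) (hb : 0 ≤ b) (hs : 0 < a * t + b * t') :
    a * (t * G (z / (c * t))) + b * (t' * G (z' / (c * t'))) ≤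
      (a * t + b * t') * G ((a * z + b * z') / (c * (a * t + b * t'))) := by
  set s := a * t + b * t' with hsdef
  have h1 := (G_concave hG).2 (mem_univ (z / (c * t))) (mem_univ (z' / (c * t')))
    (show 0 ≤ a * t / s by positivity) (show 0 ≤ b * t' / s by positivity)
    (by rw [← add_div, ← hsdef, div_self hs.ne'])
  simp only [smul_eq_mul] at h1
  have h2 : a * t / s * (z / (c * t)) + b * t' / s * (z' / (c * t')) =
      (a * z + b * z') / (c * s) := by
    field_simp
  rw [h2] at h1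
  have h3 := mul_le_mul_of_nonneg_left h1 hs.le
  have h4 : s * (a * t / s * G (z / (c * t)) + b * t' / s * G (z' / (c * t'))) =
      a * (t * G (z / (c * t))) + b * (t' * G (z' / (c * t'))) := by
    field_simp
  rw [h4] at h3
  exact h3

lemma rho_contDiff (hH : ContDiff ℝ ∞ H) : ContDiff ℝ ∞ (rho H) := by
  unfold rho
  have h1 : ContDiff ℝ ∞ (deriv H) := (contDiff_infty_iff_deriv.mp hH).2
  have h2 : ContDiff ℝ ∞ (deriv (deriv H)) := (contDiff_infty_iff_deriv.mp h1).2
  exact hH.add h2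

lemma rho_per (hH : ∀ θ, H (θ + 2 * π) = H θ) (θ : ℝ) : rho H (θ + 2 * π) = rho H θ := by
  have h1 : ∀ (f : ℝ → ℝ), (∀ θ, f (θ + 2 * π) = f θ) → ∀ θ, deriv f (θ + 2 * π) = deriv f θ := by
    intro f hf θ
    rw [← deriv_comp_add_const]
    congr 1
    funext x
    exact hf x
  unfold rho
  rw [hH, h1 _ (h1 _ hH)]

lemma drho_bdd (hH : ContDiff ℝ ∞ H) (hper : ∀ θ, H (θ + 2 * π) = H θ) :
    ∃ R : ℝ, 0 ≤ R ∧ ∀ θ, |deriv (rho H) θ| ≤ R := by
  have hc : Continuous (deriv (rho H)) :=
    (contDiff_infty_iff_deriv.mp (rho_contDiff hH)).2.continuous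
  have hp : Function.Periodic (deriv (rho H)) (2 * π) := by
    intro θ
    rw [← deriv_comp_add_const]
    congr 1
    funext x
    exact rho_per hper x
  have hb := hp.isBounded_of_continuous (by positivity) hc
  rw [Metric.isBounded_iff_subset_closedBall 0] at hb
  obtain ⟨R, hR⟩ := hb
  refine ⟨R, ?_, fun θ => ?_⟩
  · have := hR (mem_range_self 0)
    rw [Metric.mem_closedBall] at this
    exact dist_nonneg.trans this
  · have := hR (mem_range_self θ)
    rwa [mem_closedBall_zero_iff, Real.norm_eq_abs] at this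

end T1a

open T1a in
theorem pkT1a : GT1a := by
  intro κ ρ₀ ρ₁ η H G hκ hκ1 hS hG hη
  obtain ⟨hH, hper, hρ₀, hρ⟩ := hS
  obtain ⟨g₁, hg₁⟩ := hG.2.2.2.2.2
  obtain ⟨R, hR0, hR⟩ := drho_bdd hH hper
  have hg₁0 : 0 ≤ g₁ := (hG.2.2.2.1 0).trans (hg₁ 0)
  have hρpos : ∀ θ, 0 < rho H θ := fun θ => hρ₀.trans_le (hρ θ).1
  have hρ₁ : 0 < ρ₁ := (hρpos 0).trans_le (hρ 0).2
  set q : ℝ := κ * ρ₁ * g₁ / η + 1 with hq
  have hqpos : 0 < q := by positivity
  have hsm : ContDiff ℝ ∞ (fun p : (ℝ × ℝ) × ℝ => fT κ H G η q p.1 p.2) := by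
    unfold fT
    have h1 : ContDiff ℝ ∞ (fun p : (ℝ × ℝ) × ℝ => Real.exp p.1.1) := by fun_prop
    have h2 : ContDiff ℝ ∞ (fun p : (ℝ × ℝ) × ℝ => rho H p.1.2) :=
      (rho_contDiff hH).comp (by fun_prop)
    have h3 : ContDiff ℝ ∞ (fun p : (ℝ × ℝ) × ℝ => p.2 / (η * Real.exp p.1.1)) :=
      contDiff_snd.div (contDiff_const.mul h1) (fun p => by positivity)
    have h4 : ContDiff ℝ ∞ (fun p : (ℝ × ℝ) × ℝ => G (p.2 / (η * Real.exp p.1.1))) :=
      hG.1.comp h3
    exact (contDiff_const.mul contDiff_snd).sub (((contDiff_const.mul h1).mul h2).mul h4)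
  refine ⟨q, (κ * ρ₁ * (g₁ / η)) + (κ * R * (g₁ / η)) + q, hqpos, hsm.of_le (by simp), ?_, ?_, ?_,
    ?_, ?_, ?_, ?_, ?_⟩
  · -- derivative bound
    rintro ⟨τ, θ⟩ z hz0 hz1
    set F := (fun p : (ℝ × ℝ) × ℝ => fT κ H G η q p.1 p.2) with hF
    have hdiff : DifferentiableAt ℝ F ((τ, θ), z) := hsm.differentiable (by simp) _
    have hE : 0 < Real.exp τ := Real.exp_pos τ
    set y : ℝ := z / (η * Real.exp τ) with hy
    have hy0 : 0 ≤ y := by positivity
    have hEy : Real.exp τ * y = z / η := by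
      rw [hy]
      field_simp
    have hGy : G y ≤ g₁ * y := by
      have := G_lip hG hg₁ hy0
      rw [hG.2.1] at this
      linarith
    have hzη : z / η ≤ 1 / η := by gcongr
    have hEG : Real.exp τ * G y ≤ g₁ / η := by
      calc Real.exp τ * G y ≤ Real.exp τ * (g₁ * y) := by gcongr
        _ = g₁ * (z / η) := by rw [← hEy]; ring
        _ ≤ g₁ * (1 / η) := by gcongr
        _ = g₁ / η := by ring
    have hGy0 : 0 ≤ G y := G_nonneg hG hy0
    have hGd : HasDerivAt G (deriv G y) y := (G_diff hG y).hasDerivAt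
    have hGd0 := hG.2.2.2.1 y
    have hyG := G_mul_deriv hG hy0
    -- ∂τ
    have e1 : fderiv ℝ F ((τ, θ), z) ((1, 0), 0) =
        -(κ * rho H θ * (Real.exp τ * (G y - y * deriv G y))) := by
      have hc : HasDerivAt (fun t : ℝ => (((t, θ), z) : (ℝ × ℝ) × ℝ)) ((1, 0), 0) τ :=
        ((hasDerivAt_id τ).prodMk (hasDerivAt_const τ θ)).prodMk (hasDerivAt_const τ z)
      have h1 := hdiff.hasFDerivAt.comp_hasDerivAt τ hc
      have h2 : HasDerivAt (fun t : ℝ => z / (η * Real.exp t)) (-y) τ := by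
        have h3 := (hasDerivAt_const τ z).div ((Real.hasDerivAt_exp τ).const_mul η) (by positivity)
        refine h3.congr_deriv ?_
        rw [hy]
        field_simp
        ring
      have h4 : HasDerivAt (fun t : ℝ => G (z / (η * Real.exp t))) (deriv G y * (-y)) τ :=
        HasDerivAt.comp τ hGd h2
      have h5 : HasDerivAt (fun t : ℝ => q * z - κ * Real.exp t * rho H θ *
          G (z / (η * Real.exp t)))
          (0 - ((κ * Real.exp τ * rho H θ) * G y +
            (κ * Real.exp τ * rho H θ) * (deriv G y * (-y)))) τ :=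
        (hasDerivAt_const τ (q * z)).sub
          ((((Real.hasDerivAt_exp τ).const_mul κ).mul_const (rho H θ)).mul h4)
      have h6 := h1.unique h5
      rw [h6]
      ring
    have e2 : fderiv ℝ F ((τ, θ), z) ((0, 1), 0) =
        -(κ * deriv (rho H) θ * (Real.exp τ * G y)) := by
      have hc : HasDerivAt (fun t : ℝ => (((τ, t), z) : (ℝ × ℝ) × ℝ)) ((0, 1), 0) θ :=
        ((hasDerivAt_const θ τ).prodMk (hasDerivAt_id θ)).prodMk (hasDerivAt_const θ z)
      have h1 := hdiff.hasFDerivAt.comp_hasDerivAt θ hc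
      have h2 : HasDerivAt (rho H) (deriv (rho H) θ) θ :=
        ((rho_contDiff hH).differentiable (by simp) θ).hasDerivAt
      have h5 : HasDerivAt (fun t : ℝ => q * z - κ * Real.exp τ * rho H t * G y)
          (0 - (κ * Real.exp τ * deriv (rho H) θ) * G y) θ :=
        (hasDerivAt_const θ (q * z)).sub ((h2.const_mul (κ * Real.exp τ)).mul_const (G y))
      have h6 := h1.unique h5
      rw [h6]
      ring
    have e3 : fderiv ℝ F ((τ, θ), z) ((0, 0), 1) = q - κ * rho H θ * (deriv G y / η) := by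
      have hc : HasDerivAt (fun t : ℝ => (((τ, θ), t) : (ℝ × ℝ) × ℝ)) ((0, 0), 1) z :=
        (hasDerivAt_const z (τ, θ)).prodMk (hasDerivAt_id z)
      have h1 := hdiff.hasFDerivAt.comp_hasDerivAt z hc
      have h2 : HasDerivAt (fun t : ℝ => t / (η * Real.exp τ)) (1 / (η * Real.exp τ)) z :=
        (hasDerivAt_id z).div_const _
      have h4 : HasDerivAt (fun t : ℝ => G (t / (η * Real.exp τ)))
          (deriv G y * (1 / (η * Real.exp τ))) z :=
        HasDerivAt.comp z hGd h2
      have h5 : HasDerivAt (fun t : ℝ => q * t - κ * Real.exp τ * rho H θ *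
          G (t / (η * Real.exp τ)))
          (q * 1 - (κ * Real.exp τ * rho H θ) * (deriv G y * (1 / (η * Real.exp τ)))) z :=
        ((hasDerivAt_id z).const_mul q).sub (h4.const_mul (κ * Real.exp τ * rho H θ))
      have h6 := h1.unique h5
      rw [h6]
      field_simp
    have b1 : |fderiv ℝ F ((τ, θ), z) ((1, 0), 0)| ≤ κ * ρ₁ * (g₁ / η) := by
      rw [e1, abs_neg, abs_of_nonneg]
      · have h1 : Real.exp τ * (G y - y * deriv G y) ≤ g₁ / η := by
          refine le_trans ?_ hEG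
          apply mul_le_mul_of_nonneg_left _ hE.le
          have : 0 ≤ y * deriv G y := by positivity
          linarith
        have h2 : 0 ≤ Real.exp τ * (G y - y * deriv G y) :=
          mul_nonneg hE.le (by linarith)
        have h3 := (hρ θ).2
        have h4 := (hρpos θ).le
        gcongr
      · have h2 : 0 ≤ Real.exp τ * (G y - y * deriv G y) :=
          mul_nonneg hE.le (by linarith)
        have h4 := (hρpos θ).le
        positivity
    have b2 : |fderiv ℝ F ((τ, θ), z) ((0, 1), 0)| ≤ κ * R * (g₁ / η) := by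
      rw [e2, abs_neg, abs_mul, abs_mul, abs_of_pos hκ, abs_of_nonneg (mul_nonneg hE.le hGy0)]
      have h3 := hR θ
      have h4 : 0 ≤ Real.exp τ * G y := mul_nonneg hE.le hGy0
      gcongr
    have b3 : |fderiv ℝ F ((τ, θ), z) ((0, 0), 1)| ≤ q := by
      rw [e3]
      have h3 := (hρ θ).2
      have h4 := (hρpos θ).le
      have h5 : deriv G y / η ≤ g₁ / η := div_le_div_of_nonneg_right (hg₁ y) hη.le
      have h6 : 0 ≤ deriv G y / η := by positivity
      have h7 : κ * rho H θ * (deriv G y / η) ≤ κ * ρ₁ * (g₁ / η) := by gcongr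
      have h8 : 0 ≤ κ * rho H θ * (deriv G y / η) := by positivity
      have h9 : κ * ρ₁ * (g₁ / η) = q - 1 := by
        rw [hq]
        ring
      rw [abs_le]
      constructor <;> linarith
    apply ContinuousLinearMap.opNorm_le_bound _ (by positivity)
    rintro ⟨⟨h1, h2⟩, h3⟩
    have hdec : ((((h1, h2), h3) : (ℝ × ℝ) × ℝ)) = h1 • (((1, 0), 0) : (ℝ × ℝ) × ℝ) +
        h2 • (((0, 1), 0) : (ℝ × ℝ) × ℝ) + h3 • (((0, 0), 1) : (ℝ × ℝ) × ℝ) := by
      simp
    rw [hdec, map_add, map_add, map_smul, map_smul, map_smul, ← hdec]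
    simp only [smul_eq_mul, Real.norm_eq_abs]
    have n1 : |h1| ≤ ‖(((h1, h2), h3) : (ℝ × ℝ) × ℝ)‖ := by
      simp only [Prod.norm_mk, Real.norm_eq_abs]
      exact (le_max_left _ _).trans (le_max_left _ _)
    have n2 : |h2| ≤ ‖(((h1, h2), h3) : (ℝ × ℝ) × ℝ)‖ := by
      simp only [Prod.norm_mk, Real.norm_eq_abs]
      exact (le_max_right _ _).trans (le_max_left _ _)
    have n3 : |h3| ≤ ‖(((h1, h2), h3) : (ℝ × ℝ) × ℝ)‖ := by
      simp only [Prod.norm_mk, Real.norm_eq_abs]
      exact le_max_right _ _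
    have hn := norm_nonneg (((h1, h2), h3) : (ℝ × ℝ) × ℝ)
    set N := ‖(((h1, h2), h3) : (ℝ × ℝ) × ℝ)‖
    have m1 : |h1 * fderiv ℝ F ((τ, θ), z) ((1, 0), 0)| ≤ N * (κ * ρ₁ * (g₁ / η)) := by
      rw [abs_mul]
      gcongr
    have m2 : |h2 * fderiv ℝ F ((τ, θ), z) ((0, 1), 0)| ≤ N * (κ * R * (g₁ / η)) := by
      rw [abs_mul]
      gcongr
    have m3 : |h3 * fderiv ℝ F ((τ, θ), z) ((0, 0), 1)| ≤ N * q := by
      rw [abs_mul]
      gcongr
    have := abs_add_three (h1 * fderiv ℝ F ((τ, θ), z) ((1, 0), 0))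
      (h2 * fderiv ℝ F ((τ, θ), z) ((0, 1), 0)) (h3 * fderiv ℝ F ((τ, θ), z) ((0, 0), 1))
    linarith
  · -- monotone in z
    intro x z z' hz hzz hz1
    unfold fT
    have hE : 0 < Real.exp x.1 := Real.exp_pos _
    have h1 : z / (η * Real.exp x.1) ≤ z' / (η * Real.exp x.1) := by gcongr
    have h2 := G_lip hG hg₁ h1
    have h3 : κ * Real.exp x.1 * rho H x.2 *
        (G (z' / (η * Real.exp x.1)) - G (z / (η * Real.exp x.1))) ≤
        κ * Real.exp x.1 * rho H x.2 * (g₁ * (z' / (η * Real.exp x.1) - z / (η * Real.exp x.1))) := by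
      have := (hρpos x.2).le
      gcongr
    have h4 : κ * Real.exp x.1 * rho H x.2 *
        (g₁ * (z' / (η * Real.exp x.1) - z / (η * Real.exp x.1))) =
        κ * rho H x.2 * g₁ / η * (z' - z) := by
      field_simp
    have h5 : κ * rho H x.2 * g₁ / η * (z' - z) ≤ κ * ρ₁ * g₁ / η * (z' - z) := by
      have := (hρ x.2).2
      have h6 : 0 ≤ z' - z := by linarith
      gcongr
    have h6 : κ * ρ₁ * g₁ / η * (z' - z) ≤ q * (z' - z) := by
      have h7 : 0 ≤ z' - z := by linarith
      have h8 : κ * ρ₁ * g₁ / η ≤ q := by rw [hq]; linarith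
      gcongr
    linarith
  · intro x
    unfold fT
    simp [hG.2.1]
  · intro x
    unfold fT
    have hE : 0 < Real.exp x.1 := Real.exp_pos _
    have h1 : 0 ≤ G (1 / (η * Real.exp x.1)) := G_nonneg hG (by positivity)
    have h2 := (hρpos x.2).le
    have h3 : 0 ≤ κ * Real.exp x.1 * rho H x.2 * G (1 / (η * Real.exp x.1)) := by positivity
    linarith
  · intro τ τ' θ z hz hττ
    unfold fT
    simp only
    have h1 := G_persp_mono hG (z := z) hη (Real.exp_pos τ) (Real.exp_le_exp.mpr hττ)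
    have h2 : 0 ≤ κ * rho H θ := mul_nonneg hκ.le (hρpos θ).le
    have h3 := mul_le_mul_of_nonneg_left h1 h2
    linarith
  · intro x t t' z z' a b ht ht' hz hz' ha hb hab
    unfold fT
    simp only
    have hs : 0 < a * t + b * t' := by
      rcases ha.eq_or_lt with h | h
      · have : b = 1 := by linarith
        rw [← h, this]
        linarith
      · have : 0 ≤ b * t' := by positivity
        have : 0 < a * t := by positivity
        linarith
    rw [Real.exp_add, Real.exp_add, Real.exp_add, Real.exp_log hs, Real.exp_log ht,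
      Real.exp_log ht']
    have hE : 0 < Real.exp x.1 := Real.exp_pos _
    have h1 := G_persp_conc hG (c := η * Real.exp x.1) (z := z) (z' := z') (by positivity) ht ht'
      ha hb hs
    have h2 : 0 ≤ κ * Real.exp x.1 * rho H x.2 := by
      have := (hρpos x.2).le
      positivity
    have h3 := mul_le_mul_of_nonneg_left h1 h2
    rw [← mul_assoc η, ← mul_assoc η, ← mul_assoc η]
    linarith
  · intro x z hz hz1
    unfold fT
    have hE : 0 < Real.exp x.1 := Real.exp_pos _
    have h0 : 0 ≤ G (z / (η * Real.exp x.1)) := G_nonneg hG (by positivity)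
    have h1 := G_le_one hG (z / (η * Real.exp x.1))
    have h2 := (hρ x.2).2
    have h3 := (hρpos x.2).le
    have h4 : κ * Real.exp x.1 * rho H x.2 * G (z / (η * Real.exp x.1)) ≤
        κ * Real.exp x.1 * ρ₁ * 1 := by gcongr
    linarith
  · intro τ θ z
    unfold fT
    simp only
    rw [rho_per hper]

end Pool.Agent.Helper25.PCap
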