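import Pool.Agent.Helper25.PCap.GoalsT
import Pool.Agent.Helper25.PCap.GoalsTools

/-!
Planar p-capacity (MP_576c25_an): packets T2 (nondegeneracy) and T3.
-/

set_option autoImplicit false

open MeasureTheory Set Filter Topology
open scoped ContDiff Real

noncomputable section

namespace Pool.Agent.Helper25.PCap

namespace T2

lemma hd1 {f : ℝ × ℝ → ℝ} {t x : ℝ} (hf : DifferentiableAt ℝ f (t, x)) :
    HasDerivAt (fun s => f (s, x)) (D1 f (t, x)) t :=
  hf.hasFDerivAt.comp_hasDerivAt t ((hasDerivAt_id t).prodMk (hasDerivAt_const t x))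

lemma hd2 {f : ℝ × ℝ → ℝ} {t x : ℝ} (hf : DifferentiableAt ℝ f (t, x)) :
    HasDerivAt (fun s => f (t, s)) (D2 f (t, x)) x :=
  hf.hasFDerivAt.comp_hasDerivAt x ((hasDerivAt_const x t).prodMk (hasDerivAt_id x))

lemma diffD1 {f : ℝ × ℝ → ℝ} (hf : ContDiff ℝ 2 f) : Differentiable ℝ (D1 f) := by
  have h : ContDiff ℝ 1 (fderiv ℝ f) := hf.fderiv_right (m := 1) (by norm_num)
  exact (h.clm_apply contDiff_const).differentiable (by norm_num)

lemma diffD2 {f : ℝ × ℝ → ℝ} (hf : ContDiff ℝ 2 f) : Differentiable ℝ (D2 f) := by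
  have h : ContDiff ℝ 1 (fderiv ℝ f) := hf.fderiv_right (m := 1) (by norm_num)
  exact (h.clm_apply contDiff_const).differentiable (by norm_num)

/-- second derivative test, necessary condition -/
lemma deriv2_nonpos {f : ℝ → ℝ} {x : ℝ} (hmax : IsLocalMax f x) (hc : ContinuousAt f x) :
    deriv (deriv f) x ≤ 0 := by
  by_contra h
  push Not at h
  have hmin : IsLocalMin f x := isLocalMin_of_deriv_deriv_pos h hmax.deriv_eq_zero hc
  have heq : f =ᶠ[𝓝 x] fun _ => f x := by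
    filter_upwards [hmax, hmin] with y h1 h2
    exact le_antisymm h1 h2
  have h2 : deriv f =ᶠ[𝓝 x] deriv (fun _ => f x) := heq.deriv
  rw [h2.deriv_eq] at h
  simp at h

/-- first order conditions with explicit derivatives -/
lemma deriv2_nonpos' {f f' : ℝ → ℝ} {x f'' : ℝ} (hmax : IsLocalMax f x)
    (h1 : ∀ t, HasDerivAt f (f' t) t) (h2 : HasDerivAt f' f'' x) : f' x = 0 ∧ f'' ≤ 0 := by
  have hd : deriv f = f' := funext fun t => (h1 t).deriv
  constructor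
  · have := hmax.deriv_eq_zero
    rwa [hd] at this
  · have := deriv2_nonpos hmax (h1 x).continuousAt
    rwa [hd, h2.deriv] at this

lemma core {κ ρ₀ ρ₁ η : ℝ} {H G : ℝ → ℝ} {Z : ℝ × ℝ → ℝ} (hκ : 0 < κ) (hκ1 : κ < 1)
    (hρ₀ : 0 < ρ₀) (hS : SuppFn H ρ₀ ρ₁) (hG : GCut G) (hη : 0 < η) (hηρ : η ≤ ρ₀ / 2)
    (hZ : ZProp κ H G ρ₁ η Z) (x : ℝ × ℝ) (hx : η * Real.exp x.1 < Z x) :
    Real.exp x.1 ≤ 12 * Real.exp 1 / (κ * ρ₀) := by
  obtain ⟨hZ2, hZ01, -, hZeq, -, -, -⟩ := hZ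
  set ψ : ℝ × ℝ → ℝ := fun z => Z z - η * Real.exp z.1 -
    ((z.1 - x.1) ^ 2 + (z.2 - x.2) ^ 2) with hψ
  set K : Set (ℝ × ℝ) := {z | (z.1 - x.1) ^ 2 + (z.2 - x.2) ^ 2 ≤ 1} with hK
  have hKc : IsCompact K := by
    apply Metric.isCompact_of_isClosed_isBounded
    · exact isClosed_le (by fun_prop) continuous_const
    · rw [Metric.isBounded_iff_subset_closedBall x]
      refine ⟨1, fun z hz => ?_⟩
      rw [Metric.mem_closedBall, Prod.dist_eq, max_le_iff, Real.dist_eq, Real.dist_eq]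
      have hz' : (z.1 - x.1) ^ 2 + (z.2 - x.2) ^ 2 ≤ 1 := hz
      constructor
      · rw [← sq_le_one_iff_abs_le_one]
        nlinarith [sq_nonneg (z.2 - x.2)]
      · rw [← sq_le_one_iff_abs_le_one]
        nlinarith [sq_nonneg (z.1 - x.1)]
  have hψc : Continuous ψ := by
    have := hZ2.continuous
    fun_prop
  have hxK : x ∈ K := by simp [hK]
  obtain ⟨z, hzK, hzmax⟩ := hKc.exists_isMaxOn ⟨x, hxK⟩ hψc.continuousOn
  have hψx : 0 < ψ x := by
    simp only [hψ, sub_self]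
    linarith
  have hψz : 0 < ψ z := hψx.trans_le (hzmax hxK)
  have hzK' : (z.1 - x.1) ^ 2 + (z.2 - x.2) ^ 2 ≤ 1 := hzK
  have hin : (z.1 - x.1) ^ 2 + (z.2 - x.2) ^ 2 < 1 := by
    rcases hzK'.lt_or_eq with h | h
    · exact h
    · exfalso
      simp only [hψ] at hψz
      rw [h] at hψz
      have h1 := (hZ01 z).2
      have h2 : 0 < η * Real.exp z.1 := by positivity
      linarith
  have hopen : IsOpen {z : ℝ × ℝ | (z.1 - x.1) ^ 2 + (z.2 - x.2) ^ 2 < 1} :=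
    isOpen_lt (by fun_prop) continuous_const
  have hloc : IsLocalMax ψ z := by
    have hmem : {z : ℝ × ℝ | (z.1 - x.1) ^ 2 + (z.2 - x.2) ^ 2 < 1} ∈ 𝓝 z := hopen.mem_nhds hin
    filter_upwards [hmem] with y hy
    exact hzmax (le_of_lt hy)
  obtain ⟨τ, θ⟩ := z
  simp only at hin hzK'
  -- along τ
  have hloc1 : IsLocalMax (fun t => ψ (t, θ)) τ := by
    have hc : ContinuousAt (fun t : ℝ => ((t, θ) : ℝ × ℝ)) τ := by fun_prop
    exact hc.eventually hloc
  have hloc2 : IsLocalMax (fun t => ψ (τ, t)) θ := by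
    have hc : ContinuousAt (fun t : ℝ => ((τ, t) : ℝ × ℝ)) θ := by fun_prop
    exact hc.eventually hloc
  have hZd : Differentiable ℝ Z := hZ2.differentiable (by norm_num)
  have a1 : ∀ t, HasDerivAt (fun t => ψ (t, θ))
      (D1 Z (t, θ) - η * Real.exp t - 2 * (t - x.1)) t := by
    intro t
    have h1 := hd1 (hZd (t, θ))
    have h2 : HasDerivAt (fun t : ℝ => (t - x.1) ^ 2 + (θ - x.2) ^ 2) (2 * (t - x.1)) t := by
      have := (((hasDerivAt_id t).sub_const x.1).pow 2).add_const ((θ - x.2) ^ 2)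
      refine this.congr_deriv ?_
      simp
    exact (h1.sub ((Real.hasDerivAt_exp t).const_mul η)).sub h2
  have a2 : HasDerivAt (fun t => D1 Z (t, θ) - η * Real.exp t - 2 * (t - x.1))
      (D1 (D1 Z) (τ, θ) - η * Real.exp τ - 2 * 1) τ := by
    have h1 := hd1 (diffD1 hZ2 (τ, θ))
    exact (h1.sub ((Real.hasDerivAt_exp τ).const_mul η)).sub
      (((hasDerivAt_id τ).sub_const x.1).const_mul 2)
  have a3 : ∀ t, HasDerivAt (fun t => ψ (τ, t)) (D2 Z (τ, t) - 2 * (t - x.2)) t := by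
    intro t
    have h1 := hd2 (hZd (τ, t))
    have h2 : HasDerivAt (fun t : ℝ => (τ - x.1) ^ 2 + (t - x.2) ^ 2) (2 * (t - x.2)) t := by
      have := (((hasDerivAt_id t).sub_const x.2).pow 2).const_add ((τ - x.1) ^ 2)
      refine this.congr_deriv ?_
      simp
    exact (h1.sub_const (η * Real.exp τ)).sub h2
  have a4 : HasDerivAt (fun t => D2 Z (τ, t) - 2 * (t - x.2))
      (D2 (D2 Z) (τ, θ) - 2 * 1) θ := by
    have h1 := hd2 (diffD2 hZ2 (τ, θ))
    exact h1.sub (((hasDerivAt_id θ).sub_const x.2).const_mul 2)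
  obtain ⟨b1, b2⟩ := deriv2_nonpos' hloc1 a1 a2
  obtain ⟨-, b3⟩ := deriv2_nonpos' hloc2 a3 a4
  have hE : 0 < Real.exp τ := Real.exp_pos τ
  have hGone : G (Z (τ, θ) / (η * Real.exp τ)) = 1 := by
    apply hG.2.2.1
    rw [le_div_iff₀ (by positivity)]
    simp only [hψ] at hψz
    nlinarith [sq_nonneg (τ - x.1), sq_nonneg (θ - x.2)]
  have heq := hZeq (τ, θ)
  simp only [hGone, LL, mul_one] at heq
  have hρ := (hS.2.2.2 θ).1
  have hτ : |τ - x.1| ≤ 1 := by
    rw [← sq_le_one_iff_abs_le_one]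
    nlinarith [sq_nonneg (θ - x.2)]
  rw [abs_le] at hτ
  have h6 : κ * Real.exp τ * rho H θ ≤ κ * (η * Real.exp τ) + 6 := by
    have hd : D1 Z (τ, θ) = η * Real.exp τ + 2 * (τ - x.1) := by linarith
    rw [← heq, hd]
    have hκ2 : κ * D2 (D2 Z) (τ, θ) ≤ κ * 2 := by
      apply mul_le_mul_of_nonneg_left _ hκ.le
      linarith
    nlinarith
  have h7 : κ * Real.exp τ * ρ₀ ≤ κ * Real.exp τ * rho H θ := by gcongr
  have h8 : κ * (η * Real.exp τ) ≤ κ * (ρ₀ / 2 * Real.exp τ) := by gcongr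
  have h9 : κ * ρ₀ * Real.exp τ ≤ 12 := by linarith
  have h10 : Real.exp x.1 ≤ Real.exp 1 * Real.exp τ := by
    rw [← Real.exp_add]
    apply Real.exp_le_exp.mpr
    linarith
  rw [le_div_iff₀ (by positivity)]
  have h11 : 0 < Real.exp 1 := Real.exp_pos 1
  calc Real.exp x.1 * (κ * ρ₀) ≤ Real.exp 1 * Real.exp τ * (κ * ρ₀) := by gcongr
    _ = Real.exp 1 * (κ * ρ₀ * Real.exp τ) := by ring
    _ ≤ Real.exp 1 * 12 := by gcongr
    _ = 12 * Real.exp 1 := by ring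

end T2

open T2 in
theorem pkT2 : GT2 := by
  intro κ ρ₀ hκ hκ1 hρ₀
  refine ⟨Real.exp 1 * (12 * Real.exp 1 / (κ * ρ₀)), by positivity, ?_⟩
  intro ρ₁ η H G Z hS hG hη hηρ hZ z hz
  have hmono := hZ.2.2.2.2.1
  have h1 : η * Real.exp (z.1 - 1) < Z (z.1 - 1, z.2) := by
    have h2 := hmono (z.1 - 1) z.1 z.2 (by linarith)
    have h3 : η * Real.exp (z.1 - 1) < η * Real.exp z.1 := by
      gcongr
      linarith
    have h4 : Z (z.1, z.2) = Z z := rfl
    linarith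
  have h2 := core hκ hκ1 hρ₀ hS hG hη hηρ hZ (z.1 - 1, z.2) h1
  simp only at h2
  have h3 : Real.exp z.1 = Real.exp 1 * Real.exp (z.1 - 1) := by
    rw [← Real.exp_add]
    congr 1
    ring
  rw [h3]
  gcongr

end Pool.Agent.Helper25.PCap
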