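import Pool.Agent.Helper14.PCap.PkT2

/-!
Planar p-capacity (MP_576c25_an): packet T3, smallness of `Z - Z_τ` where `Z ≤ η e^τ`.
-/

set_option autoImplicit false

open MeasureTheory Set Filter Topology
open scoped ContDiff Real

noncomputable section

namespace Pool.Agent.Helper25.PCap

namespace T3

open T2

/-- tangent line inequality for a convex function on `(0,∞)` -/
lemma tangent {c : ℝ → ℝ} (hc : ConvexOn ℝ (Ioi 0) c) {t s d : ℝ} (ht : 0 < t) (hs : 0 < s)
    (hd : HasDerivAt c d t) : c t + d * (s - t) ≤ c s := by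
  rcases lt_trichotomy t s with h | h | h
  · have h1 := hc.le_slope_of_hasDerivAt (mem_Ioi.mpr ht) (mem_Ioi.mpr hs) h hd
    rw [slope_def_field, le_div_iff₀ (by linarith)] at h1
    linarith
  · rw [h]
    linarith
  · have h1 := hc.slope_le_of_hasDerivAt (mem_Ioi.mpr hs) (mem_Ioi.mpr ht) h hd
    rw [slope_def_field, div_le_iff₀ (by linarith)] at h1
    linarith

lemma hdc {Z : ℝ × ℝ → ℝ} (hZ : ContDiff ℝ 2 Z) (θ : ℝ) {t : ℝ} (ht : 0 < t) :
    HasDerivAt (fun t => Z (Real.log t, θ)) (D1 Z (Real.log t, θ) / t) t := by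
  have h1 := hd1 (hZ.differentiable (by norm_num) (Real.log t, θ))
  have h2 := HasDerivAt.comp t h1 (Real.hasDerivAt_log ht.ne')
  exact h2.congr_deriv (by rw [div_eq_mul_inv])

/-- tangent line inequality in the variable `τ` -/
lemma tangent' {Z : ℝ × ℝ → ℝ} (hZ : ContDiff ℝ 2 Z) {θ : ℝ}
    (hc : ConvexOn ℝ (Ioi 0) (fun t => Z (Real.log t, θ))) (τ σ : ℝ) :
    Z (τ, θ) + D1 Z (τ, θ) * (Real.exp (σ - τ) - 1) ≤ Z (σ, θ) := by
  have h := tangent hc (Real.exp_pos τ) (Real.exp_pos σ) (hdc hZ θ (Real.exp_pos τ))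
  simp only [Real.log_exp] at h
  have h2 : D1 Z (τ, θ) / Real.exp τ * (Real.exp σ - Real.exp τ) =
      D1 Z (τ, θ) * (Real.exp (σ - τ) - 1) := by
    rw [Real.exp_sub]
    field_simp
  rwa [h2] at h

/-- `Z - D1 Z` is nonincreasing in `τ` -/
lemma m_anti {Z : ℝ × ℝ → ℝ} (hZ : ContDiff ℝ 2 Z) {θ : ℝ}
    (hc : ConvexOn ℝ (Ioi 0) (fun t => Z (Real.log t, θ))) {τ σ : ℝ} (h : τ ≤ σ) :
    Z (σ, θ) - D1 Z (σ, θ) ≤ Z (τ, θ) - D1 Z (τ, θ) := by
  rcases h.eq_or_lt with h | h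
  · rw [h]
  have h1 := tangent' hZ hc τ σ
  have h2 := tangent' hZ hc σ τ
  have h3 : Real.exp (τ - σ) = (Real.exp (σ - τ))⁻¹ := by
    rw [← Real.exp_neg]
    congr 1
    ring
  set E := Real.exp (σ - τ) with hE
  have hE1 : 1 < E := Real.one_lt_exp_iff.mpr (by linarith)
  rw [h3] at h2
  -- a = D1 Z τ, b = D1 Z σ; adding: a (E - 1) + b (E⁻¹ - 1) ≤ 0, so a E ≤ b
  set a := D1 Z (τ, θ)
  set b := D1 Z (σ, θ)
  have h4 : a * (E - 1) + b * (E⁻¹ - 1) ≤ 0 := by linarith
  have hE0 : 0 < E := by linarith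
  have h5 : E⁻¹ - 1 = -(E - 1) / E := by field_simp; ring
  have h6 : (a - b / E) * (E - 1) ≤ 0 := by
    have : (a - b / E) * (E - 1) = a * (E - 1) + b * (E⁻¹ - 1) := by
      rw [h5]; field_simp; ring
    rw [this]; exact h4
  have h7 : a - b / E ≤ 0 := by
    by_contra hcon
    push Not at hcon
    have : 0 < (a - b / E) * (E - 1) := mul_pos hcon (by linarith)
    linarith
  -- Z τ ≥ Z σ + b (1/E - 1), so Z τ - a ≥ Z σ - b + (b/E - a)
  have h8 : b * (E⁻¹ - 1) = b / E - b := by rw [div_eq_mul_inv]; ring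
  rw [h8] at h2
  linarith

end T3

open T2 T3 in
theorem pkT3 (h2 : GT2) (hg : GQG) : GT3 := by
  intro κ ρ₀ ρ₁ hκ hκ1 e he
  by_cases hρ₀ : 0 < ρ₀
  swap
  · exact ⟨1, one_pos, fun η H G Z hS => absurd hS.2.2.1 hρ₀⟩
  by_cases hρ₁ : 0 < ρ₁
  swap
  · refine ⟨1, one_pos, fun η H G Z hS => ?_⟩
    exfalso
    have h1 := hS.2.2.2 0
    linarith
  obtain ⟨K, hK, hT2⟩ := h2 κ ρ₀ hκ hκ1 hρ₀
  obtain ⟨K', hK', hQG⟩ := hg κ hκ hκ1
  set A : ℝ := κ * (Real.exp 1 * K) * ρ₁ with hA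
  have hApos : 0 < A := by positivity
  set M : ℝ := K + 2 * K' * (K + A) with hM
  have hMpos : 0 < M := by positivity
  refine ⟨min (1 / 16) (min (ρ₀ / 2) ((e / (2 * M)) ^ 2)), by positivity, ?_⟩
  intro η H G Z hS hG hη hη₀ hZ z hz
  have hη1 : η ≤ 1 / 16 := hη₀.trans (min_le_left _ _)
  have hη2 : η ≤ ρ₀ / 2 := hη₀.trans ((min_le_right _ _).trans (min_le_left _ _))
  have hη3 : η ≤ (e / (2 * M)) ^ 2 := hη₀.trans ((min_le_right _ _).trans (min_le_right _ _))
  have hT2' := hT2 ρ₁ η H G Z hS hG hη hη2 hZ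
  obtain ⟨hZ2, hZ01, -, hZeq, hmono, hconv, hlow⟩ := hZ
  obtain ⟨τ, θ⟩ := z
  simp only at hz
  -- the contact point
  obtain ⟨τc, hτc, hZc⟩ : ∃ τc ≤ τ, Z (τc, θ) = η * Real.exp τc := by
    have hcont : Continuous (fun t : ℝ => Z (t, θ) - η * Real.exp t) := by
      have := hZ2.continuous
      fun_prop
    set C := max 1 (4 * κ * ρ₁ / (1 - κ) ^ 2)
    have ht : Tendsto (fun t : ℝ => 1 - C * Real.exp ((1 - κ) / 2 * t) - η * Real.exp t) atBot
        (𝓝 (1 - C * 0 - η * 0)) := by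
      refine Tendsto.sub (Tendsto.sub tendsto_const_nhds (Tendsto.const_mul C ?_))
        (Tendsto.const_mul η Real.tendsto_exp_atBot)
      refine Real.tendsto_exp_atBot.comp ?_
      exact tendsto_id.const_mul_atBot (by linarith)
    have e1 := ht.eventually (lt_mem_nhds (show (0 : ℝ) < 1 - C * 0 - η * 0 by simp))
    obtain ⟨t₀, ht₀, ht₀'⟩ := (e1.and (eventually_le_atBot τ)).exists
    have hw0 : 0 ≤ Z (t₀, θ) - η * Real.exp t₀ := by
      have := hlow (t₀, θ)
      simp only at this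
      linarith
    have hw1 : Z (τ, θ) - η * Real.exp τ ≤ 0 := by linarith
    have hiv := intermediate_value_Icc' ht₀' hcont.continuousOn
    obtain ⟨τc, hτc, hh⟩ := hiv (show (0 : ℝ) ∈ _ from ⟨hw1, hw0⟩)
    refine ⟨τc, hτc.2, ?_⟩
    simp only at hh
    linarith
  have hEc : Real.exp τc ≤ K := hT2' (τc, θ) (by rw [hZc])
  have hZcK : Z (τc, θ) ≤ η * K := by
    rw [hZc]
    gcongr
  have hcv := hconv θ
  have hm := m_anti hZ2 hcv hτc
  -- quadratic growth
  set h : ℝ := Real.sqrt η with hh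
  have hh0 : 0 < h := Real.sqrt_pos.mpr hη
  have hh4 : h ≤ 1 / 4 := by
    rw [hh]
    apply Real.sqrt_le_iff.mpr
    constructor
    · norm_num
    · norm_num
      linarith
  have hhsq : h ^ 2 = η := Real.sq_sqrt hη.le
  have hq := hQG Z (τc, θ) A hZ2 (fun y => (hZ01 y).1) (by
    intro y hy
    rw [hZeq y]
    rw [Prod.dist_eq, max_le_iff, Real.dist_eq] at hy
    have hy1 : y.1 ≤ τc + 1 := by
      have := (abs_le.mp hy.1).2
      simp only at this
      linarith
    have hE : 0 < Real.exp y.1 := Real.exp_pos _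
    have hG0 : 0 ≤ G (Z y / (η * Real.exp y.1)) := by
      rw [← hG.2.1]
      apply monotone_of_deriv_nonneg (hG.1.differentiable (by simp)) hG.2.2.2.1
      have := (hZ01 y).1
      positivity
    have hG1 : G (Z y / (η * Real.exp y.1)) ≤ 1 := by
      rw [← hG.2.2.1 (max 1 (Z y / (η * Real.exp y.1))) (le_max_left _ _)]
      exact monotone_of_deriv_nonneg (hG.1.differentiable (by simp)) hG.2.2.2.1 (le_max_right _ _)
    have hρ := hS.2.2.2 y.2
    have hρpos : 0 < rho H y.2 := hρ₀.trans_le hρ.1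
    constructor
    · positivity
    · have hE1 : Real.exp y.1 ≤ Real.exp 1 * K := by
        calc Real.exp y.1 ≤ Real.exp (1 + τc) := Real.exp_le_exp.mpr (by linarith)
          _ = Real.exp 1 * Real.exp τc := Real.exp_add _ _
          _ ≤ Real.exp 1 * K := by gcongr
      calc κ * Real.exp y.1 * rho H y.2 * G (Z y / (η * Real.exp y.1)) ≤
          κ * (Real.exp 1 * K) * ρ₁ * 1 := by
            have := hρ.2
            gcongr
        _ = A := by rw [hA]; ring) h hh0 hh4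
  simp only at hq
  rw [hhsq] at hq
  have htan := tangent' hZ2 hcv τc (τc - h)
  have h3 : τc - h - τc = -h := by ring
  rw [h3] at htan
  -- `1 - e^{-h} ≥ h/2`
  have hexp : h / 2 ≤ 1 - Real.exp (-h) := by
    have h4 : Real.exp (-h) * (1 + h) ≤ 1 := by
      have h5 : 1 + h ≤ Real.exp h := by
        have := Real.add_one_le_exp h
        linarith
      calc Real.exp (-h) * (1 + h) ≤ Real.exp (-h) * Real.exp h := by
            gcongr
        _ = 1 := by rw [← Real.exp_add]; simp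
    have h6 : 0 < Real.exp (-h) := Real.exp_pos _
    nlinarith
  set d : ℝ := -D1 Z (τc, θ) with hd
  have hZc0 := (hZ01 (τc, θ)).1
  -- `d (1 - e^{-h}) ≤ K' (ηK + Aη)`
  have h7 : d * (1 - Real.exp (-h)) ≤ K' * (η * K + A * η) := by
    have h8 : K' * (Z (τc, θ) + A * η) ≤ K' * (η * K + A * η) := by gcongr
    have h9 : d * (1 - Real.exp (-h)) = D1 Z (τc, θ) * (Real.exp (-h) - 1) := by
      rw [hd]; ring
    rw [h9]
    linarith
  have h8 : d ≤ 2 * K' * (K + A) * h := by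
    rcases le_or_gt d 0 with hd0 | hd0
    · have : 0 ≤ 2 * K' * (K + A) * h := by positivity
      linarith
    · have h9 : d * (h / 2) ≤ K' * (η * K + A * η) := by
        refine le_trans ?_ h7
        gcongr
      rw [← hhsq] at h9
      have h10 : h * d ≤ h * (2 * K' * (K + A) * h) := by nlinarith
      exact le_of_mul_le_mul_left h10 hh0
  have hηh : η ≤ h := by
    rw [← hhsq]
    nlinarith
  have hhe : h ≤ e / (2 * M) := by
    rw [hh]
    apply Real.sqrt_le_iff.mpr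
    exact ⟨by positivity, hη3⟩
  have h11 : h * M ≤ e / 2 := by
    rw [le_div_iff₀ (by positivity)] at hhe
    linarith
  have h12 : η * K ≤ h * K := by gcongr
  have h13 : h * M = h * K + 2 * K' * (K + A) * h := by rw [hM]; ring
  calc Z (τ, θ) - D1 Z (τ, θ) ≤ Z (τc, θ) - D1 Z (τc, θ) := hm
    _ = Z (τc, θ) + d := by rw [hd]; ring
    _ ≤ h * K + 2 * K' * (K + A) * h := by linarith
    _ = h * M := h13.symm
    _ < e := by linarith

end Pool.Agent.Helper25.PCap
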